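import Mathlib

/-!
# No universal countable right-orderable group

For every countable group `U` (right-orderable or not) there is a right-orderable group `G`,
generated by two elements, which does not embed in `U`.

For a set `S` of natural numbers let `G S` be the group of order automorphisms of the
lexicographic product `ℤ × ℚ` generated by the shift `t : (m, y) ↦ (m + 1, y)` and by
`x : (m, y) ↦ (m, x_m y)`, where `x_0 y = y + 1`, `x_m y = 2 y` if `m = k + 1` with `k ∈ S`, and
`x_m y = y` otherwise.  Then `x` commutes with `t ^ (k+1) x t ^ (-(k+1))` if and only if `k ∉ S`.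
So embeddings of all the `G S` in one countable group `U` would give an injection of the
power set of `ℕ` into `U × U`.
-/

namespace Pool.Agent.Results.MP_49314d_al.NoUniversal

/-- A group is right-orderable if it admits a total order `≤` such that
`x ≤ y` implies `x * z ≤ y * z`. -/
def RightOrderable (G : Type*) [Group G] : Prop :=
  ∃ _ : LinearOrder G, ∀ x y z : G, x ≤ y → x * z ≤ y * z

/-- A group with a positive cone is right-orderable. -/
theorem RightOrderable.of_cone {G : Type*} [Group G] (P : G → Prop)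
    (h1 : ¬ P 1) (hmul : ∀ a b, P a → P b → P (a * b))
    (htot : ∀ a, a = 1 ∨ P a ∨ P a⁻¹) : RightOrderable G := by
  classical
  have key : ∀ a, P a → ¬ P a⁻¹ := by
    intro a ha hb
    exact h1 (by simpa using hmul _ _ ha hb)
  refine ⟨{ le := fun a b => a = b ∨ P (b * a⁻¹)
            le_refl := fun a => Or.inl rfl
            le_trans := ?_
            le_antisymm := ?_
            le_total := ?_
            toDecidableLE := Classical.decRel _ }, ?_⟩
  · rintro a b c (rfl | hab) (rfl | hbc)
    · exact Or.inl rfl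
    · exact Or.inr hbc
    · exact Or.inr hab
    · right
      have := hmul _ _ hbc hab
      simpa [mul_assoc] using this
  · rintro a b (rfl | hab) (h | hba)
    · rfl
    · rfl
    · exact h.symm
    · exfalso
      apply key _ hab
      simpa using hba
  · intro a b
    rcases htot (b * a⁻¹) with h | h | h
    · left; left
      exact (mul_inv_eq_one.mp h).symm
    · left; right; exact h
    · right; right
      simpa using h
  · rintro x y z (rfl | h)
    · exact Or.inl rfl
    · right
      simpa [mul_assoc] using h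

/-- A subgroup of a right-orderable group is right-orderable. -/
theorem RightOrderable.subgroup {G : Type*} [Group G] (h : RightOrderable G) (H : Subgroup G) :
    RightOrderable H := by
  obtain ⟨o, ho⟩ := h
  refine ⟨LinearOrder.lift' (fun x : H => (x : G)) Subtype.val_injective, ?_⟩
  intro x y z hxy
  exact ho x y z hxy

/-- The group of order automorphisms of a countable linear order is right-orderable. -/
theorem rightOrderable_orderIso (α : Type*) [LinearOrder α] [Countable α] :
    RightOrderable (α ≃o α) := by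
  classical
  obtain ⟨e, he⟩ := exists_injective_nat α
  refine RightOrderable.of_cone
    (fun f => ∃ a, a < f a ∧ ∀ b, e b < e a → f b = b) ?_ ?_ ?_
  · rintro ⟨a, ha, -⟩
    exact lt_irrefl _ ha
  · rintro f g ⟨a, ha, ha'⟩ ⟨b, hb, hb'⟩
    rcases lt_trichotomy (e a) (e b) with h | h | h
    · refine ⟨a, ?_, ?_⟩
      · show a < f (g a)
        rw [hb' a h]; exact ha
      · intro c hc
        show f (g c) = c
        rw [hb' c (hc.trans h), ha' c hc]
    · obtain rfl := he h
      refine ⟨a, ?_, ?_⟩
      · show a < f (g a)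
        exact ha.trans (f.lt_iff_lt.mpr hb)
      · intro c hc
        show f (g c) = c
        rw [hb' c hc, ha' c hc]
    · refine ⟨b, ?_, ?_⟩
      · show b < f (g b)
        have := f.lt_iff_lt.mpr hb
        rwa [ha' b h] at this
      · intro c hc
        show f (g c) = c
        rw [hb' c hc, ha' c (hc.trans h)]
  · intro f
    by_cases hf : f = 1
    · exact Or.inl hf
    · right
      have hne : ∃ a, f a ≠ a := by
        by_contra hcon
        push Not at hcon
        exact hf (by ext a; exact hcon a)
      -- the first moved point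
      have hne' : ∃ n, ∃ a, e a = n ∧ f a ≠ a := by
        obtain ⟨a, ha⟩ := hne
        exact ⟨e a, a, rfl, ha⟩
      obtain ⟨a, ha, ha'⟩ := Nat.find_spec hne'
      have hmin : ∀ b, e b < e a → f b = b := by
        intro b hb
        by_contra hcon
        exact Nat.find_min hne' (ha ▸ hb) ⟨b, rfl, hcon⟩
      rcases lt_or_gt_of_ne ha' with h | h
      · right
        refine ⟨a, ?_, ?_⟩
        · show a < f.symm a
          have := f.symm.lt_iff_lt.mpr h
          simpa using this
        · intro b hb
          show f.symm b = b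
          rw [OrderIso.symm_apply_eq]
          exact (hmin b hb).symm
      · left
        exact ⟨a, h, hmin⟩

/-- The order automorphism of `ℤ ×ₗ ℚ` acting fibrewise. -/
def fib (F : ℤ → (ℚ ≃o ℚ)) : (ℤ ×ₗ ℚ) ≃o (ℤ ×ₗ ℚ) where
  toFun p := toLex ((ofLex p).1, F (ofLex p).1 (ofLex p).2)
  invFun p := toLex ((ofLex p).1, (F (ofLex p).1).symm (ofLex p).2)
  left_inv p := by simp
  right_inv p := by simp
  map_rel_iff' := by
    intro p q
    obtain ⟨a, b⟩ := p
    obtain ⟨c, d⟩ := q
    show toLex (a, F a b) ≤ toLex (c, F c d) ↔ toLex (a, b) ≤ toLex (c, d)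
    rw [Prod.Lex.toLex_le_toLex, Prod.Lex.toLex_le_toLex]
    constructor
    · rintro (h | ⟨h, h'⟩)
      · exact Or.inl h
      · simp only at h h' ⊢
        subst h
        exact Or.inr ⟨rfl, (F a).le_iff_le.mp h'⟩
    · rintro (h | ⟨h, h'⟩)
      · exact Or.inl h
      · simp only at h h' ⊢
        subst h
        exact Or.inr ⟨rfl, (F a).le_iff_le.mpr h'⟩

/-- The shift of `ℤ ×ₗ ℚ`. -/
def shf : (ℤ ×ₗ ℚ) ≃o (ℤ ×ₗ ℚ) where
  toFun p := toLex ((ofLex p).1 + 1, (ofLex p).2)
  invFun p := toLex ((ofLex p).1 - 1, (ofLex p).2)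
  left_inv p := by simp
  right_inv p := by simp
  map_rel_iff' := by
    intro p q
    obtain ⟨a, b⟩ := p
    obtain ⟨c, d⟩ := q
    show toLex (a + 1, b) ≤ toLex (c + 1, d) ↔ toLex (a, b) ≤ toLex (c, d)
    rw [Prod.Lex.toLex_le_toLex, Prod.Lex.toLex_le_toLex]
    simp

theorem fib_mul (F F' : ℤ → (ℚ ≃o ℚ)) : fib F * fib F' = fib (fun m => F m * F' m) := rfl

theorem fib_injective : Function.Injective fib := by
  intro F F' h
  funext m
  ext y
  have := congrArg (fun g : (ℤ ×ₗ ℚ) ≃o (ℤ ×ₗ ℚ) => (ofLex (g (toLex (m, y)))).2) h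
  exact this

theorem shf_conj (F : ℤ → (ℚ ≃o ℚ)) : shf * fib F = fib (fun m => F (m - 1)) * shf := by
  ext p
  show toLex ((ofLex p).1 + 1, F (ofLex p).1 (ofLex p).2) =
    toLex ((ofLex p).1 + 1, F ((ofLex p).1 + 1 - 1) (ofLex p).2)
  rw [add_sub_cancel_right]

theorem shf_pow_conj (F : ℤ → (ℚ ≃o ℚ)) (k : ℕ) :
    shf ^ k * fib F * (shf ^ k)⁻¹ = fib (fun m => F (m - k)) := by
  rw [mul_inv_eq_iff_eq_mul]
  induction k with
  | zero => simp
  | succ k ih =>
    rw [pow_succ', mul_assoc, ih, ← mul_assoc, shf_conj, mul_assoc]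
    congr 2
    funext m
    congr 1
    push_cast
    ring

/-- `y ↦ y + 1` -/
def f0 : ℚ ≃o ℚ := OrderIso.addRight 1

/-- `y ↦ 2 * y` -/
def f1 : ℚ ≃o ℚ := OrderIso.mulLeft₀ 2 (by norm_num)

open Classical in
/-- The fibre maps of the generator `x`. -/
noncomputable def FS (S : Set ℕ) (m : ℤ) : ℚ ≃o ℚ :=
  if m = 0 then f0 else if ∃ k ∈ S, m = (k : ℤ) + 1 then f1 else 1

/-- The generator `x`. -/
noncomputable def xS (S : Set ℕ) : (ℤ ×ₗ ℚ) ≃o (ℤ ×ₗ ℚ) := fib (FS S)

theorem commute_iff (S : Set ℕ) (k : ℕ) :
    Commute (xS S) (shf ^ (k + 1) * xS S * (shf ^ (k + 1))⁻¹) ↔ k ∉ S := by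
  unfold xS Commute SemiconjBy
  rw [shf_pow_conj, fib_mul, fib_mul, fib_injective.eq_iff]
  constructor
  · intro h hk
    have h2 := congrArg (fun g : ℤ → (ℚ ≃o ℚ) => g ((k : ℤ) + 1) 0) h
    have e1 : FS S ((k : ℤ) + 1) = f1 := by
      unfold FS
      rw [if_neg (by omega), if_pos ⟨k, hk, rfl⟩]
    have e2 : FS S ((k : ℤ) + 1 - ((k + 1 : ℕ) : ℤ)) = f0 := by
      unfold FS
      rw [if_pos (by push_cast; ring)]
    simp only [e1, e2] at h2
    have h3 : (2 : ℚ) * (0 + 1) = 2 * 0 + 1 := h2
    norm_num at h3
  · intro hk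
    funext m
    by_cases hm : m = 0
    · subst hm
      have e2 : FS S (0 - ((k + 1 : ℕ) : ℤ)) = 1 := by
        unfold FS
        rw [if_neg (by push_cast; omega), if_neg]
        rintro ⟨j, -, hj⟩
        push_cast at hj
        omega
      rw [e2]; simp
    · by_cases hm' : m - ((k + 1 : ℕ) : ℤ) = 0
      · have e1 : FS S m = 1 := by
          unfold FS
          rw [if_neg hm, if_neg]
          rintro ⟨j, hj, hj'⟩
          apply hk
          have : j = k := by push_cast at hm'; omega
          exact this ▸ hj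
        rw [e1]; simp
      · have e : ∀ n : ℤ, n ≠ 0 → FS S n = f1 ∨ FS S n = 1 := by
          intro n hn
          unfold FS
          rw [if_neg hn]
          split_ifs
          · exact Or.inl rfl
          · exact Or.inr rfl
        rcases e m hm with h1 | h1 <;> rcases e _ hm' with h2 | h2 <;> rw [h1, h2] <;> simp

/-- The group `G S`. -/
noncomputable def GS (S : Set ℕ) : Subgroup ((ℤ ×ₗ ℚ) ≃o (ℤ ×ₗ ℚ)) :=
  Subgroup.closure {xS S, shf}

/-- **No universal countable right-orderable group.** For every countable group `U` there is a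
right-orderable group `G`, generated by two elements (hence countable), such that no
homomorphism from `G` to `U` is injective. -/
theorem result (U : Type*) [Group U] [Countable U] :
    ∃ (G : Type) (_ : Group G), Countable G ∧ (∃ a b : G, Subgroup.closure {a, b} = ⊤) ∧
      RightOrderable G ∧ ∀ f : G →* U, ¬ Function.Injective f := by
  by_contra hcon
  push Not at hcon
  have : Countable (ℤ ×ₗ ℚ) := inferInstanceAs (Countable (ℤ × ℚ))
  have hcl : ∀ S : Set ℕ, ∃ a b : GS S, (a : (ℤ ×ₗ ℚ) ≃o (ℤ ×ₗ ℚ)) = xS S ∧
      (b : (ℤ ×ₗ ℚ) ≃o (ℤ ×ₗ ℚ)) = shf ∧ Subgroup.closure {a, b} = ⊤ := by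
    intro S
    refine ⟨⟨xS S, Subgroup.subset_closure (by simp)⟩, ⟨shf, Subgroup.subset_closure (by simp)⟩,
      rfl, rfl, ?_⟩
    have h := Subgroup.closure_closure_coe_preimage (k := ({xS S, shf} : Set _))
    refine Eq.trans ?_ h
    congr 1
    ext ⟨z, hz⟩
    constructor
    · rintro (h1 | h1)
      · exact Or.inl (congrArg Subtype.val h1)
      · exact Or.inr (congrArg Subtype.val h1)
    · rintro (h1 | h1)
      · exact Or.inl (Subtype.ext h1)
      · exact Or.inr (Subtype.ext h1)
  choose a b ha hb hab using hcl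
  have hcount : ∀ S : Set ℕ, Countable (GS S) := by
    intro S
    have h1 : Function.Surjective (FreeGroup.lift (fun i : Bool => if i then a S else b S)) := by
      rw [← MonoidHom.range_eq_top, FreeGroup.range_lift_eq_closure, ← hab S]
      congr 1
      ext z
      simp [or_comm]
    exact h1.countable
  have hemb : ∀ S : Set ℕ, ∃ f : GS S →* U, Function.Injective f := fun S =>
    hcon (GS S) inferInstance (hcount S) ⟨a S, b S, hab S⟩
      ((rightOrderable_orderIso (ℤ ×ₗ ℚ)).subgroup (GS S))
  choose f hf using hemb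
  have hinj : Function.Injective (fun S : Set ℕ => (f S (a S), f S (b S))) := by
    intro S S' h
    simp only [Prod.mk.injEq] at h
    have key : ∀ S : Set ℕ, ∀ k : ℕ,
        Commute (f S (a S)) (f S (b S) ^ (k + 1) * f S (a S) * (f S (b S) ^ (k + 1))⁻¹) ↔ k ∉ S := by
      intro S k
      rw [← commute_iff S k, ← ha S, ← hb S]
      unfold Commute SemiconjBy
      rw [← map_pow, ← map_inv, ← map_mul, ← map_mul, ← map_mul, ← map_mul, (hf S).eq_iff]
      rw [← Subtype.coe_inj]
      simp
    ext k
    have h1 := key S k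
    have h2 := key S' k
    rw [h.1, h.2] at h1
    tauto
  have : Countable (Set ℕ) := hinj.countable
  obtain ⟨g, hg⟩ := exists_injective_nat (Set ℕ)
  exact Function.cantor_injective g hg

end Pool.Agent.Results.MP_49314d_al.NoUniversal
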